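import Pool.Agent.Helper19.Un.Stmts

/-!
# Module PARS: Parseval in the central direction
-/

set_option autoImplicit false

namespace Pool.Agent.Helper19.Un

open MeasureTheory Topology Set
open scoped ComplexConjugate

variable {m : ℕ}

/-- the character `exp (-2 π i n t)` -/
noncomputable def pars_ec (n : ℤ) (t : ℝ) : ℂ := Complex.exp (-(2 * Real.pi * n * t : ℝ) * Complex.I)

theorem pars_continuous_ec (n : ℤ) : Continuous (pars_ec n) := by
  unfold pars_ec
  fun_prop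

theorem pars_norm_ec (n : ℤ) (t : ℝ) : ‖pars_ec n t‖ = 1 := by
  unfold pars_ec
  rw [← Complex.ofReal_neg, Complex.norm_exp_ofReal_mul_I]

theorem pars_ec_add (n : ℤ) (s t : ℝ) : pars_ec n (s + t) = pars_ec n s * pars_ec n t := by
  unfold pars_ec
  rw [← Complex.exp_add]
  congr 1
  push_cast
  ring

theorem pars_ec_one (n : ℤ) : pars_ec n 1 = 1 := by
  unfold pars_ec
  rw [Complex.exp_eq_one_iff]
  exact ⟨-n, by push_cast; ring⟩

theorem pars_ec_periodic (n : ℤ) (t : ℝ) : pars_ec n (t + 1) = pars_ec n t := by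
  rw [pars_ec_add, pars_ec_one, mul_one]

/-- Parseval on the unit interval -/
theorem pars_parseval1 {G : ℝ → ℂ} (hG : Continuous G) :
    HasSum (fun n : ℤ => ‖∫ t in (0 : ℝ)..1, G t * pars_ec n t‖ ^ 2)
      (∫ t in (0 : ℝ)..1, ‖G t‖ ^ 2) := by
  have hab : (0 : ℝ) < 1 := one_pos
  obtain ⟨C, hC⟩ := (isCompact_Icc : IsCompact (Icc (0 : ℝ) 1)).exists_bound_of_continuousOn
    hG.continuousOn
  have hL2 : MemLp G 2 (volume.restrict (Ioc (0 : ℝ) 1)) := by
    apply MemLp.of_bound hG.aestronglyMeasurable C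
    rw [ae_restrict_iff' measurableSet_Ioc]
    exact Filter.Eventually.of_forall fun t ht => hC t ⟨ht.1.le, ht.2⟩
  have h1 := hasSum_sq_fourierCoeffOn hab hL2
  have e1 : ∀ n : ℤ, fourierCoeffOn hab G n = ∫ t in (0 : ℝ)..1, G t * pars_ec n t := by
    intro n
    rw [fourierCoeffOn_eq_integral]
    have h2 : (1 : ℝ) / (1 - 0) = 1 := by norm_num
    rw [h2, one_smul]
    apply intervalIntegral.integral_congr
    intro t _
    simp only
    rw [fourier_coe_apply, smul_eq_mul, mul_comm]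
    congr 1
    unfold pars_ec
    congr 1
    push_cast
    ring
  simp only [e1] at h1
  have h3 : ((1 : ℝ) - 0)⁻¹ • ∫ t in (0 : ℝ)..1, ‖G t‖ ^ 2 = ∫ t in (0 : ℝ)..1, ‖G t‖ ^ 2 := by
    norm_num
  rw [h3] at h1
  exact h1

theorem pars_continuous_cellpt (β : Fin (2 * m) → E m) (c : ℝ) (u : ℝ) :
    Continuous (fun x : (Fin (2 * m) → ℝ) × ℝ => cellpt β c x u) := by
  have h1 : Continuous (fun x : (Fin (2 * m) → ℝ) × ℝ => ∑ i, x.1 i • β i) := by fun_prop
  unfold cellpt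
  apply Continuous.prodMk _ h1
  have h2 : (fun x : (Fin (2 * m) → ℝ) × ℝ =>
      (⟨-(u + ‖∑ i, x.1 i • β i‖ ^ 2) / 2, c * x.2⟩ : ℂ)) = fun x =>
      ((-(u + ‖∑ i, x.1 i • β i‖ ^ 2) / 2 : ℝ) : ℂ) + ((c * x.2 : ℝ) : ℂ) * Complex.I := by
    funext x
    exact Complex.mk_eq_add_mul_I _ _
  rw [h2]
  apply Continuous.add
  · apply Complex.continuous_ofReal.comp
    exact ((continuous_const.add (h1.norm.pow 2)).neg).div_const 2
  · apply Continuous.mul _ continuous_const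
    apply Complex.continuous_ofReal.comp
    exact continuous_const.mul continuous_snd

theorem pars_cellpt_mem (β : Fin (2 * m) → E m) (c : ℝ) {u : ℝ} (hu : 0 < u)
    (x : (Fin (2 * m) → ℝ) × ℝ) : cellpt β c x u ∈ SD m := by
  change 0 < hgt (cellpt β c x u)
  rw [hgt_cellpt]
  exact hu

theorem pars_cont {β : Fin (2 * m) → E m} {c : ℝ} {u : ℝ} (hu : 0 < u)
    {φ : Pt m → ℂ} (hφ : ContinuousOn φ (SD m)) :
    Continuous (fun x : (Fin (2 * m) → ℝ) × ℝ => φ (cellpt β c x u)) :=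
  hφ.comp_continuous (pars_continuous_cellpt β c u) (pars_cellpt_mem β c hu)

/-- translation by `T (i c t) 0` in the coordinates of the cell -/
theorem pars_shift (β : Fin (2 * m) → E m) (c u : ℝ) (y : Fin (2 * m) → ℝ) (s t : ℝ) :
    ((cellpt β c (y, s) u).1 + (c * t : ℝ) * Complex.I, (cellpt β c (y, s) u).2)
      = cellpt β c (y, s + t) u := by
  unfold cellpt
  apply Prod.ext
  · simp only
    apply Complex.ext
    · simp
    · simp
      ring
  · rfl

theorem pars_per {N : ℂ → E m → Prop} {β : Fin (2 * m) → E m} {c : ℝ} (hN : Cusp N β c)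
    {φ : Pt m → ℂ} (hφ : Per N φ) {u : ℝ} (hu : 0 < u) (y : Fin (2 * m) → ℝ) (s : ℝ) :
    φ (cellpt β c (y, s + 1) u) = φ (cellpt β c (y, s) u) := by
  have h1 : N (((1 : ℤ) : ℂ) * (c : ℂ) * Complex.I) 0 := (hN.cen _).2 ⟨1, rfl⟩
  have h2 := hφ _ _ h1 _ (pars_cellpt_mem β c hu (y, s))
  rw [act_T] at h2
  rw [← h2, ← pars_shift]
  congr 1
  apply Prod.ext
  · simp only
    rw [inner_zero_left]
    push_cast
    ring
  · simp

/-- the `n`-th Fourier coefficient -/
noncomputable def pars_md (n : ℤ) (G : (Fin (2 * m) → ℝ) × ℝ → ℂ) (y : Fin (2 * m) → ℝ) : ℂ :=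
  ∫ t in (0 : ℝ)..1, G (y, t) * pars_ec n t

theorem pars_continuous_md (n : ℤ) {G : (Fin (2 * m) → ℝ) × ℝ → ℂ} (hG : Continuous G) :
    Continuous (pars_md n G) := by
  unfold pars_md
  apply intervalIntegral.continuous_parametric_intervalIntegral_of_continuous'
  exact (hG.comp continuous_id).mul ((pars_continuous_ec n).comp continuous_snd)

/-- the modes in the coordinates of the cell -/
theorem pars_mode_eq {N : ℂ → E m → Prop} {β : Fin (2 * m) → E m} {c : ℝ} (hN : Cusp N β c)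
    {φ : Pt m → ℂ} (hφ : Per N φ) {u : ℝ} (hu : 0 < u) (n : ℤ) (y : Fin (2 * m) → ℝ) (s : ℝ) :
    mode c n φ (cellpt β c (y, s) u)
      = pars_ec n (-s) * pars_md n (fun x => φ (cellpt β c x u)) y := by
  have h0 : mode c n φ (cellpt β c (y, s) u)
      = ∫ t in (0 : ℝ)..1, pars_ec n (-s) * ((fun r => φ (cellpt β c (y, r) u) * pars_ec n r)
        (t + s)) := by
    unfold mode
    apply intervalIntegral.integral_congr
    intro t _
    simp only
    rw [pars_shift, add_comm s t]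
    have : Complex.exp (-(2 * Real.pi * n * t : ℝ) * Complex.I)
        = pars_ec n (-s) * pars_ec n (t + s) := by
      rw [← pars_ec_add]
      unfold pars_ec
      congr 1
      push_cast
      ring
    rw [this]
    ring
  rw [h0, intervalIntegral.integral_const_mul]
  congr 1
  rw [intervalIntegral.integral_comp_add_right (fun r => φ (cellpt β c (y, r) u) * pars_ec n r) s]
  have h3 : Function.Periodic (fun r => φ (cellpt β c (y, r) u) * pars_ec n r) 1 := by
    intro t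
    simp only
    rw [pars_ec_periodic, pars_per hN hφ hu]
  have h4 := h3.intervalIntegral_add_eq (0 + s) 0
  rw [zero_add] at h4 ⊢
  rw [add_comm 1 s, h4]
  unfold pars_md
  norm_num

theorem pars_norm_mode {N : ℂ → E m → Prop} {β : Fin (2 * m) → E m} {c : ℝ} (hN : Cusp N β c)
    {φ : Pt m → ℂ} (hφ : Per N φ) {u : ℝ} (hu : 0 < u) (n : ℤ) (y : Fin (2 * m) → ℝ) (s : ℝ) :
    ‖mode c n φ (cellpt β c (y, s) u)‖ = ‖pars_md n (fun x => φ (cellpt β c x u)) y‖ := by
  rw [pars_mode_eq hN hφ hu, norm_mul, pars_norm_ec, one_mul]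

theorem pars_Icc : Icc (0 : (Fin (2 * m) → ℝ) × ℝ) 1
    = Icc (0 : Fin (2 * m) → ℝ) 1 ×ˢ Icc (0 : ℝ) 1 := by
  rw [Icc_prod_Icc]
  rfl

/-- Tonelli on the cell -/
theorem pars_tonelli {F : (Fin (2 * m) → ℝ) × ℝ → ENNReal} (hF : Measurable F) :
    ∫⁻ x in Icc (0 : (Fin (2 * m) → ℝ) × ℝ) 1, F x
      = ∫⁻ y in Icc (0 : Fin (2 * m) → ℝ) 1, ∫⁻ t in Icc (0 : ℝ) 1, F (y, t) := by
  rw [pars_Icc, Measure.volume_eq_prod, ← Measure.prod_restrict, lintegral_prod _ hF.aemeasurable]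

theorem pars_cell_mode {N : ℂ → E m → Prop} {β : Fin (2 * m) → E m} {c : ℝ} (hN : Cusp N β c)
    {φ : Pt m → ℂ} (hφ : Per N φ) (hc : ContinuousOn φ (SD m)) {u : ℝ} (hu : 0 < u) (n : ℤ) :
    cellInt β c (fun p => ENNReal.ofReal (‖mode c n φ p‖ ^ 2)) u
      = ∫⁻ y in Icc (0 : Fin (2 * m) → ℝ) 1,
        ENNReal.ofReal (‖pars_md n (fun x => φ (cellpt β c x u)) y‖ ^ 2) := by
  unfold cellInt
  have h0 : (fun x : (Fin (2 * m) → ℝ) × ℝ =>
      ENNReal.ofReal (‖mode c n φ (cellpt β c x u)‖ ^ 2)) = fun x =>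
      ENNReal.ofReal (‖pars_md n (fun x => φ (cellpt β c x u)) x.1‖ ^ 2) := by
    funext x
    rw [← pars_norm_mode hN hφ hu n x.1 x.2]
  have hm : Measurable (fun x : (Fin (2 * m) → ℝ) × ℝ =>
      ENNReal.ofReal (‖pars_md n (fun x => φ (cellpt β c x u)) x.1‖ ^ 2)) :=
    ((((pars_continuous_md n (pars_cont hu hc)).comp continuous_fst).norm.pow
      2).measurable).ennreal_ofReal
  rw [show (∫⁻ x in Icc (0 : (Fin (2 * m) → ℝ) × ℝ) 1,
      (fun p => ENNReal.ofReal (‖mode c n φ p‖ ^ 2)) (cellpt β c x u))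
      = ∫⁻ x in Icc (0 : (Fin (2 * m) → ℝ) × ℝ) 1,
        (fun x : (Fin (2 * m) → ℝ) × ℝ =>
          ENNReal.ofReal (‖mode c n φ (cellpt β c x u)‖ ^ 2)) x from rfl, h0, pars_tonelli hm]
  apply lintegral_congr
  intro y
  change ∫⁻ _ in Icc (0 : ℝ) 1,
    ENNReal.ofReal (‖pars_md n (fun x => φ (cellpt β c x u)) y‖ ^ 2) = _
  rw [lintegral_const, Measure.restrict_apply MeasurableSet.univ, univ_inter, Real.volume_Icc]
  simp

theorem st_PARS : ST_PARS := by
  intro m N β c hN φ hc hφ u hu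
  have hG : Continuous (fun x : (Fin (2 * m) → ℝ) × ℝ => φ (cellpt β c x u)) := pars_cont hu hc
  have h1 : cellInt β c (fun p => ENNReal.ofReal (‖φ p‖ ^ 2)) u
      = ∫⁻ y in Icc (0 : Fin (2 * m) → ℝ) 1, ∫⁻ t in Icc (0 : ℝ) 1,
        ENNReal.ofReal (‖φ (cellpt β c (y, t) u)‖ ^ 2) :=
    pars_tonelli (F := fun x => ENNReal.ofReal (‖φ (cellpt β c x u)‖ ^ 2))
      ((hG.norm.pow 2).measurable.ennreal_ofReal)
  rw [h1]
  simp only [pars_cell_mode hN hφ hc hu]
  rw [← lintegral_tsum]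
  · apply lintegral_congr
    intro y
    have hGy : Continuous (fun t => φ (cellpt β c (y, t) u)) :=
      hG.comp (Continuous.prodMk_right y)
    have h2 := pars_parseval1 hGy
    have h3 : ∫⁻ t in Icc (0 : ℝ) 1, ENNReal.ofReal (‖φ (cellpt β c (y, t) u)‖ ^ 2) =
        ENNReal.ofReal (∫ t in (0 : ℝ)..1, ‖φ (cellpt β c (y, t) u)‖ ^ 2) := by
      rw [intervalIntegral.integral_of_le zero_le_one, ← integral_Icc_eq_integral_Ioc,
        ofReal_integral_eq_lintegral_ofReal]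
      · exact (hGy.norm.pow 2).integrableOn_Icc
      · exact Filter.Eventually.of_forall fun t => by positivity
    rw [h3, ← h2.tsum_eq, ENNReal.ofReal_tsum_of_nonneg (fun n => by positivity) h2.summable]
    rfl
  · intro n
    exact ((pars_continuous_md n hG).norm.pow 2).measurable.ennreal_ofReal.aemeasurable

end Pool.Agent.Helper19.Un
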