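import Pool.Agent.Helper22.Un.PARS

/-!
# Module POI: Poincaré inequality on the Heisenberg nilmanifold
-/

set_option autoImplicit false

namespace Pool.Agent.Helper19.Un

open MeasureTheory Topology Set
open scoped ComplexConjugate

variable {m : ℕ}

/-! ### Invariance of derivatives -/

/-- the linear part of the translation `T a b` -/
noncomputable def poi_L (b : E m) : Pt m →L[ℝ] Pt m :=
  (ContinuousLinearMap.fst ℝ ℂ (E m) - ((innerSL ℂ b).restrictScalars ℝ).comp
    (ContinuousLinearMap.snd ℝ ℂ (E m))).prod (ContinuousLinearMap.snd ℝ ℂ (E m))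

theorem poi_L_apply (b : E m) (v : Pt m) : poi_L b v = (v.1 - inner ℂ b v.2, v.2) := rfl

theorem poi_hasFDerivAt_T (a : ℂ) (b : E m) (p : Pt m) :
    HasFDerivAt (act (T a b)) (poi_L b) p := by
  have h1 : act (T a b) = fun p => poi_L b p + (a, b) := by
    funext q
    rw [act_T, poi_L_apply]
    rfl
  rw [h1]
  exact (poi_L b).hasFDerivAt.add_const _

/-- derivative of a periodic function -/
theorem poi_fderiv {N : ℂ → E m → Prop} {β : Fin (2 * m) → E m} {c : ℝ} (hN : Cusp N β c)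
    {φ : Pt m → ℂ} (hd : ContDiffOn ℝ 1 φ (SD m)) (hφ : Per N φ) {a : ℂ} {b : E m} (hab : N a b)
    {p : Pt m} (hp : p ∈ SD m) (v : Pt m) :
    fderiv ℝ φ (act (T a b) p) (poi_L b v) = fderiv ℝ φ p v := by
  have hg : T a b ∈ UG m := T_mem_UG (hN.norm a b hab)
  have h1 : HasFDerivAt φ (fderiv ℝ φ (act (T a b) p)) (act (T a b) p) :=
    ((hd.contDiffAt (isOpen_SD.mem_nhds (act_mem hg hp))).differentiableAt one_ne_zero).hasFDerivAt
  have h2 := h1.comp p (poi_hasFDerivAt_T a b p)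
  have h3 : (φ ∘ act (T a b)) =ᶠ[𝓝 p] φ := by
    filter_upwards [isOpen_SD.mem_nhds hp] with q hq
    exact hφ a b hab q hq
  have h4 := h2.congr_of_eventuallyEq h3.symm
  rw [h4.fderiv]
  rfl

theorem poi_inner_ek (b : E m) (k : Fin m) : inner ℂ b (ek k) = conj (b k) := by
  unfold ek
  rw [EuclideanSpace.inner_single_right]
  simp

theorem poi_per_X {N : ℂ → E m → Prop} {β : Fin (2 * m) → E m} {c : ℝ} (hN : Cusp N β c)
    {φ : Pt m → ℂ} (hd : ContDiffOn ℝ 1 φ (SD m)) (hφ : Per N φ) (k : Fin m) :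
    Per N (XX k φ) := by
  intro a b hab p hp
  unfold XX
  rw [← poi_fderiv hN hd hφ hab hp]
  congr 1
  rw [poi_L_apply, act_T]
  apply Prod.ext
  · change -conj ((p.2 + b) k) = -conj (p.2 k) - inner ℂ b (ek k)
    rw [poi_inner_ek, PiLp.add_apply, map_add]
    ring
  · rfl

theorem poi_per_Y {N : ℂ → E m → Prop} {β : Fin (2 * m) → E m} {c : ℝ} (hN : Cusp N β c)
    {φ : Pt m → ℂ} (hd : ContDiffOn ℝ 1 φ (SD m)) (hφ : Per N φ) (k : Fin m) :
    Per N (YY k φ) := by
  intro a b hab p hp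
  unfold YY
  rw [← poi_fderiv hN hd hφ hab hp]
  congr 1
  rw [poi_L_apply, act_T]
  apply Prod.ext
  · change -(Complex.I * conj ((p.2 + b) k))
      = -(Complex.I * conj (p.2 k)) - inner ℂ b (Complex.I • ek k)
    rw [inner_smul_right, poi_inner_ek, PiLp.add_apply, map_add]
    ring
  · rfl

theorem poi_per_Z {N : ℂ → E m → Prop} {β : Fin (2 * m) → E m} {c : ℝ} (hN : Cusp N β c)
    {φ : Pt m → ℂ} (hd : ContDiffOn ℝ 1 φ (SD m)) (hφ : Per N φ) :
    Per N (pd (Complex.I, 0) φ) := by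
  intro a b hab p hp
  unfold pd
  rw [← poi_fderiv hN hd hφ hab hp]
  congr 1
  rw [poi_L_apply]
  apply Prod.ext
  · simp
  · rfl

/-! ### Continuity of derivatives -/

theorem poi_cfd {φ : Pt m → ℂ} (hd : ContDiffOn ℝ 1 φ (SD m)) :
    ContinuousOn (fderiv ℝ φ) (SD m) :=
  hd.continuousOn_fderiv_of_isOpen isOpen_SD le_rfl

theorem poi_continuous_coord (k : Fin m) : Continuous (fun p : Pt m => p.2 k) :=
  (EuclideanSpace.proj (𝕜 := ℂ) k).continuous.comp continuous_snd

theorem poi_c_X {φ : Pt m → ℂ} (hd : ContDiffOn ℝ 1 φ (SD m)) (k : Fin m) :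
    ContinuousOn (XX k φ) (SD m) := by
  unfold XX
  apply (poi_cfd hd).clm_apply
  apply Continuous.continuousOn
  exact (Complex.continuous_conj.comp (poi_continuous_coord k)).neg.prodMk continuous_const

theorem poi_c_Y {φ : Pt m → ℂ} (hd : ContDiffOn ℝ 1 φ (SD m)) (k : Fin m) :
    ContinuousOn (YY k φ) (SD m) := by
  unfold YY
  apply (poi_cfd hd).clm_apply
  apply Continuous.continuousOn
  exact (continuous_const.mul
    (Complex.continuous_conj.comp (poi_continuous_coord k))).neg.prodMk continuous_const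

theorem poi_c_Z {φ : Pt m → ℂ} (hd : ContDiffOn ℝ 1 φ (SD m)) :
    ContinuousOn (pd (Complex.I, 0) φ) (SD m) := by
  unfold pd
  exact (poi_cfd hd).clm_apply continuousOn_const

/-! ### Integrals over the cell -/

theorem poi_congr {β : Fin (2 * m) → E m} {c u : ℝ} (hu : 0 < u) {F G : Pt m → ENNReal}
    (h : ∀ p ∈ SD m, F p = G p) : cellInt β c F u = cellInt β c G u := by
  unfold cellInt
  apply lintegral_congr
  intro x
  exact h _ (pars_cellpt_mem β c hu x)

theorem poi_meas {β : Fin (2 * m) → E m} {c u : ℝ} (hu : 0 < u) {φ : Pt m → ℂ}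
    (hφ : ContinuousOn φ (SD m)) :
    Measurable (fun x : (Fin (2 * m) → ℝ) × ℝ => ENNReal.ofReal (‖φ (cellpt β c x u)‖ ^ 2)) :=
  ((pars_cont hu hφ).norm.pow 2).measurable.ennreal_ofReal

/-- splitting of the integral of the squared horizontal gradient -/
theorem poi_split {β : Fin (2 * m) → E m} {c u : ℝ} (hu : 0 < u) {f g : Fin m → Pt m → ℂ}
    (hf : ∀ k, ContinuousOn (f k) (SD m)) (hg : ∀ k, ContinuousOn (g k) (SD m)) :
    cellInt β c (fun p => ENNReal.ofReal (∑ k : Fin m, (‖f k p‖ ^ 2 + ‖g k p‖ ^ 2))) u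
      = ∑ k : Fin m, (cellInt β c (fun p => ENNReal.ofReal (‖f k p‖ ^ 2)) u
        + cellInt β c (fun p => ENNReal.ofReal (‖g k p‖ ^ 2)) u) := by
  have h1 : cellInt β c (fun p => ENNReal.ofReal (∑ k : Fin m, (‖f k p‖ ^ 2 + ‖g k p‖ ^ 2))) u
      = cellInt β c (fun p => ∑ k : Fin m, (ENNReal.ofReal (‖f k p‖ ^ 2)
        + ENNReal.ofReal (‖g k p‖ ^ 2))) u := by
    apply poi_congr hu
    intro p _
    rw [ENNReal.ofReal_sum_of_nonneg (fun k _ => by positivity)]
    apply Finset.sum_congr rfl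
    intro k _
    rw [ENNReal.ofReal_add (by positivity) (by positivity)]
  rw [h1]
  unfold cellInt
  rw [lintegral_finsetSum]
  · apply Finset.sum_congr rfl
    intro k _
    exact lintegral_add_left (poi_meas hu (hf k)) _
  · intro k _
    exact (poi_meas hu (hf k)).add (poi_meas hu (hg k))

theorem poi_split1 {β : Fin (2 * m) → E m} {c u : ℝ} (hu : 0 < u) {f g : Pt m → ℂ}
    (hf : ContinuousOn f (SD m)) :
    cellInt β c (fun p => ENNReal.ofReal (‖f p‖ ^ 2 + ‖g p‖ ^ 2)) u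
      = cellInt β c (fun p => ENNReal.ofReal (‖f p‖ ^ 2)) u
        + cellInt β c (fun p => ENNReal.ofReal (‖g p‖ ^ 2)) u := by
  have h1 : cellInt β c (fun p => ENNReal.ofReal (‖f p‖ ^ 2 + ‖g p‖ ^ 2)) u
      = cellInt β c (fun p => ENNReal.ofReal (‖f p‖ ^ 2) + ENNReal.ofReal (‖g p‖ ^ 2)) u := by
    apply poi_congr hu
    intro p _
    rw [ENNReal.ofReal_add (by positivity) (by positivity)]
  rw [h1]
  exact lintegral_add_left (poi_meas hu hf) _

theorem poi_gh {β : Fin (2 * m) → E m} {c u : ℝ} (hu : 0 < u) {φ : Pt m → ℂ}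
    (hd : ContDiffOn ℝ 1 φ (SD m)) :
    cellInt β c (fun p => ENNReal.ofReal (gh φ p)) u
      = ENNReal.ofReal (u ^ 2) *
          cellInt β c (fun p => ENNReal.ofReal (‖pd (Complex.I, 0) φ p‖ ^ 2)) u
        + ENNReal.ofReal u * ∑ k : Fin m,
          (cellInt β c (fun p => ENNReal.ofReal (‖XX k φ p‖ ^ 2)) u
          + cellInt β c (fun p => ENNReal.ofReal (‖YY k φ p‖ ^ 2)) u) := by
  rw [← poi_split hu (fun k => poi_c_X hd k) (fun k => poi_c_Y hd k)]
  have mZ := poi_meas (β := β) (c := c) hu (poi_c_Z hd)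
  have mH : Measurable (fun x : (Fin (2 * m) → ℝ) × ℝ => ENNReal.ofReal
      (∑ k : Fin m, (‖XX k φ (cellpt β c x u)‖ ^ 2 + ‖YY k φ (cellpt β c x u)‖ ^ 2))) := by
    apply Measurable.ennreal_ofReal
    apply Continuous.measurable
    apply continuous_finsetSum
    intro k _
    exact ((pars_cont hu (poi_c_X hd k)).norm.pow 2).add
      ((pars_cont hu (poi_c_Y hd k)).norm.pow 2)
  unfold cellInt
  rw [← lintegral_const_mul _ mZ, ← lintegral_const_mul _ mH,
    ← lintegral_add_left (mZ.const_mul _)]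
  apply lintegral_congr
  intro x
  rw [← ENNReal.ofReal_mul hu.le, ← ENNReal.ofReal_mul (by positivity),
    ← ENNReal.ofReal_add (by positivity)
      (mul_nonneg hu.le (Finset.sum_nonneg fun k _ => by positivity))]
  unfold gh
  simp only [hgt_cellpt]

/-! ### The mean value of the zeroth mode -/

theorem poi_mean {N : ℂ → E m → Prop} {β : Fin (2 * m) → E m} {c : ℝ} (hN : Cusp N β c)
    {φ : Pt m → ℂ} (hc : ContinuousOn φ (SD m)) (hφ : Per N φ) {u : ℝ} (hu : 0 < u) :
    ∫ x in Icc (0 : (Fin (2 * m) → ℝ) × ℝ) 1, mode c 0 φ (cellpt β c x u)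
      = ∫ x in Icc (0 : (Fin (2 * m) → ℝ) × ℝ) 1, φ (cellpt β c x u) := by
  have hG : Continuous (fun x : (Fin (2 * m) → ℝ) × ℝ => φ (cellpt β c x u)) := pars_cont hu hc
  have e0 : ∀ t : ℝ, pars_ec 0 t = 1 := by
    intro t
    unfold pars_ec
    simp
  have h1 : (fun x : (Fin (2 * m) → ℝ) × ℝ => mode c 0 φ (cellpt β c x u)) = fun x =>
      pars_md 0 (fun x => φ (cellpt β c x u)) x.1 := by
    funext x
    have := pars_mode_eq hN hφ hu 0 x.1 x.2
    rw [e0, one_mul] at this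
    exact this
  have hM : Continuous (fun x : (Fin (2 * m) → ℝ) × ℝ =>
      pars_md 0 (fun x => φ (cellpt β c x u)) x.1) := (pars_continuous_md 0 hG).comp continuous_fst
  have key : ∀ {F : (Fin (2 * m) → ℝ) × ℝ → ℂ}, Continuous F →
      ∫ x in Icc (0 : (Fin (2 * m) → ℝ) × ℝ) 1, F x
        = ∫ y in Icc (0 : Fin (2 * m) → ℝ) 1, ∫ t in Icc (0 : ℝ) 1, F (y, t) := by
    intro F hF
    rw [pars_Icc, Measure.volume_eq_prod]
    apply setIntegral_prod
    apply ContinuousOn.integrableOn_compact (isCompact_Icc.prod isCompact_Icc)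
    exact hF.continuousOn
  rw [h1, key hM, key hG]
  congr 1
  funext y
  change ∫ _ in Icc (0 : ℝ) 1, pars_md 0 (fun x => φ (cellpt β c x u)) y = _
  rw [setIntegral_const]
  have h2 : (volume : Measure ℝ).real (Icc (0 : ℝ) 1) = 1 := by simp
  rw [h2, one_smul]
  unfold pars_md
  rw [intervalIntegral.integral_of_le zero_le_one, ← integral_Icc_eq_integral_Ioc]
  congr 1
  funext t
  rw [e0, mul_one]

/-! ### The inequality in a mode -/

theorem poi_mode (h1 : ST_MODE) (h3 : ST_LAND) (h4 : ST_ABEL) {N : ℂ → E m → Prop}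
    {β : Fin (2 * m) → E m} {c δ : ℝ} (hN : Cusp N β c) (hδ : DualMin β δ)
    {φ : Pt m → ℂ} (hd : ContDiffOn ℝ 2 φ (SD m)) (hφ : Per N φ) {u : ℝ} (hu : 0 < u)
    (hm : ∫ x in Icc (0 : (Fin (2 * m) → ℝ) × ℝ) 1, φ (cellpt β c x u) = 0) (n : ℤ) :
    ENNReal.ofReal (muP m δ c u) *
        cellInt β c (fun p => ENNReal.ofReal (‖mode c n φ p‖ ^ 2)) u
      ≤ ENNReal.ofReal (u ^ 2) *
          cellInt β c (fun p => ENNReal.ofReal (‖mode c n (pd (Complex.I, 0) φ) p‖ ^ 2)) u
        + ENNReal.ofReal u * ∑ k : Fin m,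
          (cellInt β c (fun p => ENNReal.ofReal (‖mode c n (XX k φ) p‖ ^ 2)) u
          + cellInt β c (fun p => ENNReal.ofReal (‖mode c n (YY k φ) p‖ ^ 2)) u) := by
  obtain ⟨a1, a2, a3⟩ := h1 m N β c hN φ hd hφ n
  have a1' : ContDiffOn ℝ 1 (mode c n φ) (SD m) := a1.of_le (by norm_num)
  have bX : ∀ k, cellInt β c (fun p => ENNReal.ofReal (‖mode c n (XX k φ) p‖ ^ 2)) u
      = cellInt β c (fun p => ENNReal.ofReal (‖XX k (mode c n φ) p‖ ^ 2)) u := by
    intro k
    apply poi_congr hu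
    intro p hp
    rw [((a3 p hp).2.2 k).1]
  have bY : ∀ k, cellInt β c (fun p => ENNReal.ofReal (‖mode c n (YY k φ) p‖ ^ 2)) u
      = cellInt β c (fun p => ENNReal.ofReal (‖YY k (mode c n φ) p‖ ^ 2)) u := by
    intro k
    apply poi_congr hu
    intro p hp
    rw [((a3 p hp).2.2 k).2]
  simp only [bX, bY]
  have hpi := Real.pi_pos
  have hc := hN.cpos
  by_cases hn : n = 0
  · subst hn
    have z0 : ∀ p ∈ SD m, pd (Complex.I, 0) (mode c 0 φ) p = 0 := by
      intro p hp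
      rw [(a3 p hp).1]
      simp
    have hmean : ∫ x in Icc (0 : (Fin (2 * m) → ℝ) × ℝ) 1, mode c 0 φ (cellpt β c x u) = 0 := by
      rw [poi_mean hN hd.continuousOn hφ hu, hm]
    have k1 := h4 m N β c δ hN hδ (mode c 0 φ) a1 a2 z0 u hu hmean
    rw [poi_split hu (fun k => poi_c_X a1' k) (fun k => poi_c_Y a1' k)] at k1
    have k2 : muP m δ c u ≤ 4 * Real.pi ^ 2 * δ * u := min_le_left _ _
    calc ENNReal.ofReal (muP m δ c u) *
          cellInt β c (fun p => ENNReal.ofReal (‖mode c 0 φ p‖ ^ 2)) u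
        ≤ ENNReal.ofReal (u * (4 * Real.pi ^ 2 * δ)) *
          cellInt β c (fun p => ENNReal.ofReal (‖mode c 0 φ p‖ ^ 2)) u := by
          apply mul_le_mul_left
          apply ENNReal.ofReal_le_ofReal
          linarith
      _ = ENNReal.ofReal u * (ENNReal.ofReal (4 * Real.pi ^ 2 * δ) *
          cellInt β c (fun p => ENNReal.ofReal (‖mode c 0 φ p‖ ^ 2)) u) := by
          rw [ENNReal.ofReal_mul hu.le, mul_assoc]
      _ ≤ _ := (mul_le_mul_right k1 _).trans le_add_self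
  · have bZ : cellInt β c (fun p => ENNReal.ofReal (‖mode c n (pd (Complex.I, 0) φ) p‖ ^ 2)) u
        = ENNReal.ofReal ((2 * Real.pi * n / c) ^ 2) *
          cellInt β c (fun p => ENNReal.ofReal (‖mode c n φ p‖ ^ 2)) u := by
      have e1 : cellInt β c (fun p => ENNReal.ofReal (‖mode c n (pd (Complex.I, 0) φ) p‖ ^ 2)) u
          = cellInt β c (fun p => ENNReal.ofReal ((2 * Real.pi * n / c) ^ 2) *
            ENNReal.ofReal (‖mode c n φ p‖ ^ 2)) u := by
        apply poi_congr hu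
        intro p hp
        rw [(a3 p hp).2.1, (a3 p hp).1, norm_mul, norm_mul, Complex.norm_I, mul_one,
          Complex.norm_real, Real.norm_eq_abs, mul_pow, sq_abs, ENNReal.ofReal_mul (by positivity)]
      rw [e1]
      exact lintegral_const_mul _ (poi_meas hu a1.continuousOn)
    rw [bZ]
    have hn1 : (1 : ℝ) ≤ |(n : ℝ)| := by
      have : (1 : ℤ) ≤ |n| := Int.one_le_abs hn
      exact_mod_cast this
    have hn2 : (1 : ℝ) ≤ (n : ℝ) ^ 2 := by
      rw [← sq_abs]
      nlinarith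
    have k1 : ∀ k : Fin m, ENNReal.ofReal (4 * Real.pi / c) *
        cellInt β c (fun p => ENNReal.ofReal (‖mode c n φ p‖ ^ 2)) u
        ≤ cellInt β c (fun p => ENNReal.ofReal (‖XX k (mode c n φ) p‖ ^ 2)) u
          + cellInt β c (fun p => ENNReal.ofReal (‖YY k (mode c n φ) p‖ ^ 2)) u := by
      intro k
      rw [← poi_split1 hu (poi_c_X a1' k)]
      refine le_trans ?_ (h3 m N β c hN (mode c n φ) a1 a2 n (fun p hp => (a3 p hp).1) u hu k)
      apply mul_le_mul_left
      apply ENNReal.ofReal_le_ofReal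
      apply div_le_div_of_nonneg_right _ hc.le
      nlinarith
    have k2 := Finset.sum_le_sum (fun k (_ : k ∈ (Finset.univ : Finset (Fin m))) => k1 k)
    rw [Finset.sum_const, Finset.card_univ, Fintype.card_fin, nsmul_eq_mul] at k2
    have k3 : muP m δ c u ≤ (m : ℝ) * (4 * Real.pi / c) * u + 4 * Real.pi ^ 2 / c ^ 2 * u ^ 2 :=
      min_le_right _ _
    have k4 : muP m δ c u ≤ u ^ 2 * (2 * Real.pi * n / c) ^ 2 + u * (m * (4 * Real.pi / c)) := by
      have e2 : (2 * Real.pi * n / c) ^ 2 = 4 * Real.pi ^ 2 / c ^ 2 * (n : ℝ) ^ 2 := by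
        rw [div_pow, mul_pow, mul_pow]
        ring
      have e3 : 4 * Real.pi ^ 2 / c ^ 2 * 1 ≤ 4 * Real.pi ^ 2 / c ^ 2 * (n : ℝ) ^ 2 :=
        mul_le_mul_of_nonneg_left hn2 (by positivity)
      have e4 := mul_le_mul_of_nonneg_left e3 (by positivity : 0 ≤ u ^ 2)
      rw [e2]
      linarith
    calc ENNReal.ofReal (muP m δ c u) *
          cellInt β c (fun p => ENNReal.ofReal (‖mode c n φ p‖ ^ 2)) u
        ≤ ENNReal.ofReal (u ^ 2 * (2 * Real.pi * n / c) ^ 2 + u * (m * (4 * Real.pi / c))) *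
          cellInt β c (fun p => ENNReal.ofReal (‖mode c n φ p‖ ^ 2)) u := by
          apply mul_le_mul_left
          exact ENNReal.ofReal_le_ofReal k4
      _ = ENNReal.ofReal (u ^ 2) * (ENNReal.ofReal ((2 * Real.pi * n / c) ^ 2) *
            cellInt β c (fun p => ENNReal.ofReal (‖mode c n φ p‖ ^ 2)) u) +
          ENNReal.ofReal u * ((m : ENNReal) * (ENNReal.ofReal (4 * Real.pi / c) *
            cellInt β c (fun p => ENNReal.ofReal (‖mode c n φ p‖ ^ 2)) u)) := by
          rw [ENNReal.ofReal_add (by positivity) (by positivity),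
            ENNReal.ofReal_mul (by positivity), ENNReal.ofReal_mul hu.le,
            ENNReal.ofReal_mul (by positivity : (0 : ℝ) ≤ (m : ℝ)), ENNReal.ofReal_natCast]
          ring
      _ ≤ _ := add_le_add_right (mul_le_mul_right k2 _) _

theorem st_POI (h1 : ST_MODE) (h2 : ST_PARS) (h3 : ST_LAND) (h4 : ST_ABEL) : ST_POI := by
  intro m N β c δ hN hδ φ hd hper u hu hm
  have hφ : Per N φ := hper
  have hd1 : ContDiffOn ℝ 1 φ (SD m) := hd.of_le (by norm_num)
  have p0 := h2 m N β c hN φ hd.continuousOn hφ u hu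
  have pZ := h2 m N β c hN _ (poi_c_Z hd1) (poi_per_Z hN hd1 hφ) u hu
  have pX := fun k => h2 m N β c hN _ (poi_c_X hd1 k) (poi_per_X hN hd1 hφ k) u hu
  have pY := fun k => h2 m N β c hN _ (poi_c_Y hd1 k) (poi_per_Y hN hd1 hφ k) u hu
  rw [poi_gh hu hd1, p0, pZ]
  simp only [pX, pY]
  have e1 : (∑ k : Fin m,
      ((∑' n : ℤ, cellInt β c (fun p => ENNReal.ofReal (‖mode c n (XX k φ) p‖ ^ 2)) u)
      + ∑' n : ℤ, cellInt β c (fun p => ENNReal.ofReal (‖mode c n (YY k φ) p‖ ^ 2)) u))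
      = ∑' n : ℤ, ∑ k : Fin m,
        (cellInt β c (fun p => ENNReal.ofReal (‖mode c n (XX k φ) p‖ ^ 2)) u
        + cellInt β c (fun p => ENNReal.ofReal (‖mode c n (YY k φ) p‖ ^ 2)) u) := by
    rw [Summable.tsum_finsetSum (fun _ _ => ENNReal.summable)]
    apply Finset.sum_congr rfl
    intro k _
    rw [ENNReal.tsum_add]
  rw [e1, ← ENNReal.tsum_mul_left, ← ENNReal.tsum_mul_left, ← ENNReal.tsum_mul_left,
    ← ENNReal.tsum_add]
  apply ENNReal.tsum_le_tsum
  intro n
  exact poi_mode h1 h3 h4 hN hδ hd hφ hu hm n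

end Pool.Agent.Helper19.Un
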